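import Pool.Agent.X283.BMG.Emb
import Pool.Agent.X283.BMG.Bnd

set_option autoImplicit false

/-!
# A non-amenable subgroup of `Map(ℝ² - C)` all of whose quasimorphisms are trivial

There are a Cantor set `C` in the plane and a subgroup `H` of the mapping class group of `ℝ² - C`
which is not amenable, while every homogeneous quasimorphism on `H` is a homomorphism.  The group `H`
is isomorphic to the group of automorphisms of the ordered set `ℚ ×ₗ ℚ` with bounded support.

The definitions (Cantor sets in the plane, the surface `ℝ² - C`, isotopies, orientation preserving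
homeomorphisms, the mapping class group, amenable groups, homogeneous quasimorphisms) are in
`Pool.Agent.X283.BMG.Surf` and `Pool.Agent.X283.BMG.Grp`.
-/

noncomputable section

namespace Pool.Agent.Results.MP_ac6992_gt.NonamenableNoQuasimorphisms

open Pool.Agent.X283.BMG

theorem hqm_add {H : Type} [Group H] {φ ψ : H → ℝ} (hφ : IsHQM φ) (hψ : IsHQM ψ) :
    IsHQM (φ + ψ) := by
  obtain ⟨⟨D, hD⟩, h1⟩ := hφ
  obtain ⟨⟨E, hE⟩, h2⟩ := hψ
  refine ⟨⟨D + E, fun g h => ?_⟩, fun g n => ?_⟩
  · have := abs_add_le (φ (g * h) - φ g - φ h) (ψ (g * h) - ψ g - ψ h)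
    have h3 := hD g h
    have h4 := hE g h
    simp only [Pi.add_apply]
    rw [show φ (g * h) + ψ (g * h) - (φ g + ψ g) - (φ h + ψ h) =
      (φ (g * h) - φ g - φ h) + (ψ (g * h) - ψ g - ψ h) by ring]
    linarith
  · simp only [Pi.add_apply, h1, h2]
    ring

theorem hqm_zero (H : Type) [Group H] : IsHQM (0 : H → ℝ) :=
  ⟨⟨0, fun g h => by simp⟩, fun g n => by simp⟩

theorem hqm_smul {H : Type} [Group H] (c : ℝ) {φ : H → ℝ} (hφ : IsHQM φ) : IsHQM (c • φ) := by
  obtain ⟨⟨D, hD⟩, h1⟩ := hφ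
  refine ⟨⟨|c| * D, fun g h => ?_⟩, fun g n => ?_⟩
  · simp only [Pi.smul_apply, smul_eq_mul]
    rw [show c * φ (g * h) - c * φ g - c * φ h = c * (φ (g * h) - φ g - φ h) by ring, abs_mul]
    exact mul_le_mul_of_nonneg_left (hD g h) (abs_nonneg c)
  · simp only [Pi.smul_apply, smul_eq_mul, h1]
    ring

/-- `φ` is a homomorphism to the real numbers. -/
def IsHom {H : Type} [Group H] (φ : H → ℝ) : Prop := ∀ g h : H, φ (g * h) = φ g + φ h

theorem hom_add {H : Type} [Group H] {φ ψ : H → ℝ} (h1 : IsHom φ) (h2 : IsHom ψ) :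
    IsHom (φ + ψ) := by
  intro g h
  show φ (g * h) + ψ (g * h) = (φ g + ψ g) + (φ h + ψ h)
  rw [h1, h2]
  ring

theorem hom_zero (H : Type) [Group H] : IsHom (0 : H → ℝ) := fun g h => by simp

theorem hom_smul {H : Type} [Group H] (c : ℝ) {φ : H → ℝ} (h1 : IsHom φ) : IsHom (c • φ) := by
  intro g h
  show c * φ (g * h) = c * φ g + c * φ h
  rw [h1]
  ring

/-- The real vector space `Q(H)` of homogeneous quasimorphisms on `H`. -/
def Q (H : Type) [Group H] : Submodule ℝ (H → ℝ) where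
  carrier := {φ | IsHQM φ}
  add_mem' := hqm_add
  zero_mem' := hqm_zero H
  smul_mem' := hqm_smul

/-- The subspace `Hom(H, ℝ)` of `Q(H)`. -/
def HomR (H : Type) [Group H] : Submodule ℝ (Q H) where
  carrier := {φ | IsHom φ.1}
  add_mem' := hom_add
  zero_mem' := hom_zero H
  smul_mem' := fun c _ h => hom_smul c h

/-- The space `Q(H) / Hom(H, ℝ)`. -/
abbrev Qtilde (H : Type) [Group H] : Type := Q H ⧸ HomR H

/-- The dimension of `Q(H) / Hom(H, ℝ)`. -/
def dimQtilde (H : Type) [Group H] : Cardinal := Module.rank ℝ (Qtilde H)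

/-- There are a Cantor set `C` in the plane and a subgroup `H` of `Map(ℝ² - C)`, all of whose elements
are classes of orientation preserving homeomorphisms, such that `H` is not amenable and
`Q(H) / Hom(H, ℝ)` has dimension `0`. -/
theorem result :
    ∃ C : Set ℂ, IsCantorSet C ∧ ∃ H : Subgroup (ExtMap C),
      H ≤ MapGroup C ∧
      (∀ x ∈ H, ∃ h : Surf C ≃ₜ Surf C, OrientationPreserving h ∧ cls h = x) ∧
      ¬ Amenable H ∧ dimQtilde H = 0 := by
  obtain ⟨a⟩ := exists_wt II
  refine ⟨a.C2, a.isCantor, ?_⟩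
  let ψ : (II ≃o II) →* ExtMap a.C2 := (QuotientGroup.mk' (Homeo0 a.C2)).comp a.ThHom
  have hψ : Function.Injective ψ := by
    rw [injective_iff_map_eq_one]
    intro σ hσ
    have h1 : a.Th σ ∈ Homeo0 a.C2 := (QuotientGroup.eq_one_iff _).1 hσ
    exact a.Th_injective h1
  have horient : ∀ x ∈ BB.map ψ, ∃ h : Surf a.C2 ≃ₜ Surf a.C2,
      OrientationPreserving h ∧ cls h = x := by
    rintro x ⟨σ, -, rfl⟩
    exact ⟨a.Th σ, a.orient σ, rfl⟩
  let e : BB ≃* BB.map ψ := BB.equivMapOfInjective ψ hψ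
  refine ⟨BB.map ψ, fun x hx => Subgroup.subset_closure (horient x hx), horient,
    fun h => BB_not_amenable (h.congr e.symm), ?_⟩
  have hhom : HomR (BB.map ψ) = ⊤ := by
    rw [eq_top_iff]
    intro φ _ g h
    obtain ⟨⟨D, hD⟩, h2⟩ := φ.2
    have h3 : IsHQM fun σ : BB => φ.1 (e σ) := by
      refine ⟨⟨D, fun σ τ => ?_⟩, fun σ n => ?_⟩
      · show |φ.1 (e (σ * τ)) - φ.1 (e σ) - φ.1 (e τ)| ≤ D
        rw [map_mul]
        exact hD _ _
      · show φ.1 (e (σ ^ n)) = n * φ.1 (e σ)
        rw [map_zpow]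
        exact h2 _ _
    have h4 := BB_hom h3 (e.symm g) (e.symm h)
    simpa using h4
  have : Subsingleton (Qtilde (BB.map ψ)) := by
    rw [Submodule.Quotient.subsingleton_iff]
    exact hhom
  exact rank_subsingleton' ℝ _

end Pool.Agent.Results.MP_ac6992_gt.NonamenableNoQuasimorphisms
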